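import Pool.Agent.TH596.NE.Loc

set_option autoImplicit false

open Set Function Bundle
open scoped ContDiff Manifold Topology InnerProductSpace

namespace Pool.Agent.TH596.NE

variable {S : Type} [MetricSpace S] [ChartedSpace E2 S] [IsManifold 𝓘(ℝ, E2) ∞ S]
  [CompactSpace S]
  {V : Type} [NormedAddCommGroup V] [NormedSpace ℝ V] [FiniteDimensional ℝ V]
  [RiemannianBundle (fun x : S => TangentSpace 𝓘(ℝ, E2) x)]
  [IsContMDiffRiemannianBundle 𝓘(ℝ, E2) ∞ E2 (fun x : S => TangentSpace 𝓘(ℝ, E2) x)]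

/-- Global decomposition. -/
theorem glob {e : S → V} (he : ContMDiff 𝓘(ℝ, E2) 𝓘(ℝ, V) ∞ e)
    (hd : ∀ x, Injective (mfderiv 𝓘(ℝ, E2) 𝓘(ℝ, V) e x))
    {ι : Type} [Fintype ι] (u : ι → V → ℝ) (hu : ∀ J, ContDiff ℝ ∞ (u J)) :
    ∃ c : ℝ, 0 < c ∧ ∃ (K : Type) (_ : Fintype K) (A : K → S → ℝ) (l : K → V →L[ℝ] ℝ),
      (∀ k, ContMDiff 𝓘(ℝ, E2) 𝓘(ℝ, ℝ) ∞ (A k)) ∧
      ∀ x, ∀ v : TangentSpace 𝓘(ℝ, E2) x,
        ‖v‖ ^ 2 - c ^ 2 * ∑ J, (fderiv ℝ (u J) (e x) (De e x v)) ^ 2 =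
          ∑ k, (A k x) ^ 2 * (l k (De e x v)) ^ 2 := by
  classical
  choose U hUo hxU c0 hc0 m β0 β1 hβ0 hβ1 hpos hdec using loc he hd u hu
  obtain ⟨T, hT⟩ := CompactSpace.elim_nhds_subcover U (fun x => (hUo x).mem_nhds (hxU x))
  have hcov : (univ : Set S) ⊆ ⋃ i : T, U i := by
    intro x _
    have : x ∈ (⊤ : Set S) := trivial
    rw [← hT] at this
    simp only [mem_iUnion] at this ⊢
    obtain ⟨i, hi, hx⟩ := this
    exact ⟨⟨i, hi⟩, hx⟩
  obtain ⟨f, hf⟩ := SmoothPartitionOfUnity.exists_isSubordinate 𝓘(ℝ, E2) isClosed_univ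
    (fun i : T => U i) (fun i => hUo i) hcov
  -- the constant
  set c : ℝ := (∑ i : T, (1 / c0 i) + 1)⁻¹ with hc
  have hsum0 : 0 ≤ ∑ i : T, (1 / c0 i) := Finset.sum_nonneg fun i _ => by
    have := hc0 i
    positivity
  have hcpos : 0 < c := by positivity
  have hcle : ∀ i : T, c ≤ c0 i := by
    intro i
    have h1 : 1 / c0 i ≤ ∑ i : T, (1 / c0 i) :=
      Finset.single_le_sum (f := fun i : T => 1 / c0 i) (fun i _ => by
        have := hc0 i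
        positivity) (Finset.mem_univ i)
    rw [hc, inv_le_comm₀ (by positivity) (hc0 i), ← one_div]
    linarith
  set D : S → ℝ := fun x => ∑ i : T, (f i x) ^ 2 with hD
  have hDpos : ∀ x, 0 < D x := by
    intro x
    obtain ⟨i, hi⟩ := f.exists_pos_of_mem (mem_univ x)
    have h1 : (f i x) ^ 2 ≤ D x :=
      Finset.single_le_sum (f := fun i : T => (f i x) ^ 2) (fun _ _ => sq_nonneg _)
        (Finset.mem_univ i)
    have h2 : 0 < (f i x) ^ 2 := by positivity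
    linarith
  have hDs : ContMDiff 𝓘(ℝ, E2) 𝓘(ℝ, ℝ) ∞ D := by
    intro x
    apply ContMDiffAt.sum
    intro i _
    exact ((f i).contMDiff x).pow 2
  refine ⟨c, hcpos, T × Fin 4, inferInstance,
    fun k x => f k.1 x • ((√(D x))⁻¹ * √(β0 k.1 k.2 x - c ^ 2 * β1 k.1 k.2 x)),
    fun k => m k.1 k.2, ?_, ?_⟩
  · rintro ⟨i, j⟩
    apply f.contMDiff_smul
    intro x hx
    have hxi : x ∈ U i := hf i hx
    have h1 : ContMDiffAt 𝓘(ℝ, E2) 𝓘(ℝ, ℝ) ∞ (fun x => √(D x)) x :=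
      ContMDiffAt.comp x (Real.contDiffAt_sqrt (hDpos x).ne').contMDiffAt (hDs x)
    have h2 : ContMDiffAt 𝓘(ℝ, E2) 𝓘(ℝ, ℝ) ∞ (fun x => (√(D x))⁻¹) x :=
      h1.inv₀ (Real.sqrt_pos.2 (hDpos x)).ne'
    have h3 : ContMDiffAt 𝓘(ℝ, E2) 𝓘(ℝ, ℝ) ∞
        (fun x => β0 i j x - c ^ 2 * β1 i j x) x :=
      (hβ0 i j x hxi).sub (contMDiffAt_const.mul (hβ1 i j x hxi))
    have h4 : ContMDiffAt 𝓘(ℝ, E2) 𝓘(ℝ, ℝ) ∞
        (fun x => √(β0 i j x - c ^ 2 * β1 i j x)) x :=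
      ContMDiffAt.comp x
        (Real.contDiffAt_sqrt (hpos i x hxi j c hcpos (hcle i)).ne').contMDiffAt h3
    exact h2.mul h4
  · intro x v
    rw [Fintype.sum_prod_type]
    have hi : ∀ i : T, ∑ j : Fin 4, (f i x • ((√(D x))⁻¹ *
        √(β0 i j x - c ^ 2 * β1 i j x))) ^ 2 * (m i j (De e x v)) ^ 2 =
        (f i x) ^ 2 / D x *
          (‖v‖ ^ 2 - c ^ 2 * ∑ J, (fderiv ℝ (u J) (e x) (De e x v)) ^ 2) := by
      intro i
      by_cases hfi : f i x = 0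
      · simp [hfi]
      · have hxi : x ∈ U i := hf i (subset_tsupport _ (mem_support.2 hfi))
        obtain ⟨h1, h2⟩ := hdec i x hxi v
        rw [h1, h2, Finset.mul_sum, ← Finset.sum_sub_distrib, Finset.mul_sum]
        apply Finset.sum_congr rfl
        intro j _
        rw [smul_eq_mul, mul_pow, mul_pow, Real.sq_sqrt (hpos i x hxi j c hcpos (hcle i)).le,
          inv_pow, Real.sq_sqrt (hDpos x).le]
        ring
    rw [Finset.sum_congr rfl (fun i _ => hi i), ← Finset.sum_mul, ← Finset.sum_div]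
    change _ = D x / D x * _
    rw [div_self (hDpos x).ne', one_mul]

end Pool.Agent.TH596.NE
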