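import Mathlib

set_option autoImplicit false

open Set Function
open scoped ContDiff Manifold Topology

namespace Pool.Agent.TH596.NE

variable {E : Type*} [NormedAddCommGroup E] [NormedSpace ℝ E] [FiniteDimensional ℝ E]
  {S : Type*} [TopologicalSpace S] [ChartedSpace E S] [IsManifold 𝓘(ℝ, E) ∞ S]
  [CompactSpace S] [T2Space S]
  {V : Type*} [NormedAddCommGroup V] [NormedSpace ℝ V] [FiniteDimensional ℝ V]

omit [CompactSpace S] [T2Space S] in
/-- Injectivity of the differential in the chart. -/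
lemma fderiv_chart_injective {e : S → V} (he : ContMDiff 𝓘(ℝ, E) 𝓘(ℝ, V) ∞ e) (x0 : S)
    (hinj : Injective (mfderiv 𝓘(ℝ, E) 𝓘(ℝ, V) e x0)) :
    Injective (fderiv ℝ (e ∘ (extChartAt 𝓘(ℝ, E) x0).symm) (extChartAt 𝓘(ℝ, E) x0 x0)) := by
  have h1 : MDifferentiableAt 𝓘(ℝ, E) 𝓘(ℝ, V) e x0 := he.mdifferentiableAt (by simp)
  rw [h1.mfderiv] at hinj
  have h2 : fderivWithin ℝ (writtenInExtChartAt 𝓘(ℝ, E) 𝓘(ℝ, V) x0 e) (range 𝓘(ℝ, E))
      (extChartAt 𝓘(ℝ, E) x0 x0) =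
      fderiv ℝ (e ∘ (extChartAt 𝓘(ℝ, E) x0).symm) (extChartAt 𝓘(ℝ, E) x0 x0) := by
    simp only [writtenInExtChartAt, extChartAt_model_space_eq_id, PartialEquiv.refl_coe,
      Function.id_comp, modelWithCornersSelf_coe, Set.range_id, fderivWithin_univ]
  rw [← h2]
  exact hinj

/-- Local extension of functions. -/
lemma local_ext {e : S → V} (he : ContMDiff 𝓘(ℝ, E) 𝓘(ℝ, V) ∞ e) (hinj : Injective e)
    (hd : ∀ x, Injective (mfderiv 𝓘(ℝ, E) 𝓘(ℝ, V) e x))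
    {A : S → ℝ} (hA : ContMDiff 𝓘(ℝ, E) 𝓘(ℝ, ℝ) ∞ A) (x0 : S) :
    ∃ O : Set V, IsOpen O ∧ e x0 ∈ O ∧ ∃ f : V → ℝ, ContDiffOn ℝ ∞ f O ∧
      ∀ x, e x ∈ O → f (e x) = A x := by
  set φ := extChartAt 𝓘(ℝ, E) x0 with hφ
  set u0 := φ x0 with hu0
  have htgt : IsOpen φ.target := isOpen_extChartAt_target x0
  have hu0t : u0 ∈ φ.target := mem_extChartAt_target x0
  have hM : Injective (fderiv ℝ (e ∘ φ.symm) u0) := fderiv_chart_injective he x0 (hd x0)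
  obtain ⟨g0, hg0⟩ := LinearMap.exists_leftInverse_of_injective
    ((fderiv ℝ (e ∘ φ.symm) u0 : E →L[ℝ] V) : E →ₗ[ℝ] V) (LinearMap.ker_eq_bot.2 hM)
  set Λ : V →L[ℝ] E := LinearMap.toContinuousLinearMap g0 with hΛ
  have hes : ContDiffOn ℝ ∞ (e ∘ φ.symm) φ.target := by
    rw [← contMDiffOn_iff_contDiffOn]
    exact he.comp_contMDiffOn (contMDiffOn_extChartAt_symm x0)
  set f1 : E → E := Λ ∘ (e ∘ φ.symm) with hf1
  have hf1s : ContDiffOn ℝ ∞ f1 φ.target := Λ.contDiff.comp_contDiffOn hes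
  have hf1at : ContDiffAt ℝ ∞ f1 u0 := hf1s.contDiffAt (htgt.mem_nhds hu0t)
  have hder : HasFDerivAt f1 ((ContinuousLinearEquiv.refl ℝ E : E ≃L[ℝ] E) : E →L[ℝ] E) u0 := by
    have h1 : HasFDerivAt (e ∘ φ.symm) (fderiv ℝ (e ∘ φ.symm) u0) u0 :=
      ((hes.contDiffAt (htgt.mem_nhds hu0t)).differentiableAt (by simp)).hasFDerivAt
    have h2 : HasFDerivAt f1 (Λ.comp (fderiv ℝ (e ∘ φ.symm) u0)) u0 :=
      Λ.hasFDerivAt.comp u0 h1
    have h3 : Λ.comp (fderiv ℝ (e ∘ φ.symm) u0) =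
        ((ContinuousLinearEquiv.refl ℝ E : E ≃L[ℝ] E) : E →L[ℝ] E) := by
      ext v
      exact LinearMap.congr_fun hg0 v
    rwa [h3] at h2
  set Ψ := hf1at.toOpenPartialHomeomorph f1 hder (by simp) with hΨ
  have hΨcoe : (Ψ : E → E) = f1 := rfl
  have hu0Ψ : u0 ∈ Ψ.source := hf1at.mem_toOpenPartialHomeomorph_source hder (by simp)
  have hcont : ContinuousOn (fun u => (fderiv ℝ f1 u).det) φ.target := by
    apply ContinuousLinearMap.continuous_det.comp_continuousOn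
    exact hf1s.continuousOn_fderiv_of_isOpen htgt (by simp)
  set Sg : Set E := Ψ.source ∩ (φ.target ∩ (fun u => (fderiv ℝ f1 u).det) ⁻¹' {0}ᶜ) with hSg
  have hSgo : IsOpen Sg := by
    apply Ψ.open_source.inter
    exact hcont.isOpen_inter_preimage htgt isOpen_compl_singleton
  have hu0S : u0 ∈ Sg := by
    refine ⟨hu0Ψ, hu0t, ?_⟩
    rw [Set.mem_preimage, hder.fderiv]
    simp [ContinuousLinearMap.det]
  -- the open set in the target
  set W : Set E := Ψ '' Sg with hW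
  have hWo : IsOpen W := Ψ.isOpen_image_of_subset_source hSgo (fun u hu => hu.1)
  have hg : ∀ w ∈ W, ContDiffAt ℝ ∞ Ψ.symm w := by
    rintro w ⟨u, hu, rfl⟩
    have hut : Ψ u ∈ Ψ.target := Ψ.map_source hu.1
    have hdet : (fderiv ℝ f1 u).det ≠ 0 := hu.2.2
    apply Ψ.contDiffAt_symm
      (f₀' := (fderiv ℝ f1 u).toContinuousLinearEquivOfDetNeZero hdet) hut
    · rw [Ψ.left_inv hu.1, hΨcoe]
      rw [ContinuousLinearMap.coe_toContinuousLinearEquivOfDetNeZero]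
      exact ((hf1s.contDiffAt (htgt.mem_nhds hu.2.1)).differentiableAt (by simp)).hasFDerivAt
    · rw [Ψ.left_inv hu.1, hΨcoe]
      exact hf1s.contDiffAt (htgt.mem_nhds hu.2.1)
  -- the open set in `S`
  set U : Set S := φ.source ∩ φ ⁻¹' Sg with hU
  have hUo : IsOpen U := isOpen_extChartAt_preimage' x0 hSgo
  have hcl : IsClosed (e '' Uᶜ) :=
    (hUo.isClosed_compl.isCompact.image he.continuous).isClosed
  refine ⟨(e '' Uᶜ)ᶜ ∩ Λ ⁻¹' W, hcl.isOpen_compl.inter (hWo.preimage Λ.continuous), ?_,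
    fun y => A (φ.symm (Ψ.symm (Λ y))), ?_, ?_⟩
  · refine ⟨?_, ?_⟩
    · rintro ⟨x, hx, hxe⟩
      apply hx
      rw [hinj hxe]
      exact ⟨mem_extChartAt_source x0, hu0S⟩
    · refine ⟨u0, hu0S, ?_⟩
      change Λ (e (φ.symm u0)) = Λ (e x0)
      rw [hu0, extChartAt_to_inv]
  · intro y hy
    apply ContDiffAt.contDiffWithinAt
    obtain ⟨u, hu, huy⟩ := hy.2
    have h1 : ContDiffAt ℝ ∞ (fun y => Ψ.symm (Λ y)) y :=
      (hg (Λ y) hy.2).comp y Λ.contDiff.contDiffAt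
    have h2 : Ψ.symm (Λ y) = u := by rw [← huy, Ψ.left_inv hu.1]
    have h3 : ContMDiffAt 𝓘(ℝ, E) 𝓘(ℝ, ℝ) ∞ (A ∘ φ.symm) u := by
      apply (hA.comp_contMDiffOn (contMDiffOn_extChartAt_symm x0)).contMDiffAt
      exact htgt.mem_nhds hu.2.1
    have h4 : ContDiffAt ℝ ∞ (A ∘ φ.symm) (Ψ.symm (Λ y)) := by
      rw [h2]
      exact h3.contDiffAt
    exact (ContDiffAt.comp y h4 h1 :
      ContDiffAt ℝ ∞ ((A ∘ φ.symm) ∘ fun y => Ψ.symm (Λ y)) y)
  · intro x hx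
    have hxU : x ∈ U := by
      by_contra hcon
      exact hx.1 ⟨x, hcon, rfl⟩
    have h1 : Λ (e x) = Ψ (φ x) := by
      change Λ (e x) = Λ (e (φ.symm (φ x)))
      rw [φ.left_inv hxU.1]
    change A (φ.symm (Ψ.symm (Λ (e x)))) = A x
    rw [h1, Ψ.left_inv hxU.2.1, φ.left_inv hxU.1]

/-- Extension of smooth functions from an embedded compact manifold. -/
theorem exists_ext {e : S → V} (he : ContMDiff 𝓘(ℝ, E) 𝓘(ℝ, V) ∞ e) (hinj : Injective e)
    (hd : ∀ x, Injective (mfderiv 𝓘(ℝ, E) 𝓘(ℝ, V) e x))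
    {A : S → ℝ} (hA : ContMDiff 𝓘(ℝ, E) 𝓘(ℝ, ℝ) ∞ A) :
    ∃ f : V → ℝ, ContDiff ℝ ∞ f ∧ ∀ x, f (e x) = A x := by
  obtain ⟨g, hg⟩ := exists_contMDiffMap_forall_mem_convex_of_local (n := (⊤ : ℕ∞)) 𝓘(ℝ, V)
    (t := fun y : V => {r : ℝ | ∀ x, e x = y → r = A x}) (by
      intro y r hr r' hr' a b _ _ hab x hx
      rw [hr x hx, hr' x hx, ← add_smul, hab, one_smul]) (by
      intro y
      by_cases hy : y ∈ range e
      · obtain ⟨x0, rfl⟩ := hy
        obtain ⟨O, hO, hxO, f, hf, hfA⟩ := local_ext he hinj hd hA x0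
        refine ⟨O, hO.mem_nhds hxO, f, hf.contMDiffOn, ?_⟩
        intro z hz x hx
        subst hx
        exact hfA x hz
      · refine ⟨(range e)ᶜ, (isCompact_range he.continuous).isClosed.isOpen_compl.mem_nhds hy,
          fun _ => 0, contMDiffOn_const, ?_⟩
        intro z hz x hx
        exact absurd ⟨x, hx⟩ hz)
  exact ⟨g, g.contMDiff.contDiff, fun x => hg (e x) x rfl⟩

end Pool.Agent.TH596.NE
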