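import Pool.Agent.TH596.NE.Ext

set_option autoImplicit false

open Set Function Bundle
open scoped ContDiff Manifold Topology InnerProductSpace

namespace Pool.Agent.TH596.NE

abbrev E2 : Type := EuclideanSpace ℝ (Fin 2)

section

variable {S : Type} [MetricSpace S] [ChartedSpace E2 S] [IsManifold 𝓘(ℝ, E2) ∞ S]
  {V : Type} [NormedAddCommGroup V] [NormedSpace ℝ V]

/-- The differential of `e` as a linear map with values in `V`. -/
noncomputable def De (e : S → V) (x : S) : TangentSpace 𝓘(ℝ, E2) x →ₗ[ℝ] V where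
  toFun v := mfderiv 𝓘(ℝ, E2) 𝓘(ℝ, V) e x v
  map_add' v w := (mfderiv 𝓘(ℝ, E2) 𝓘(ℝ, V) e x).map_add v w
  map_smul' a v := (mfderiv 𝓘(ℝ, E2) 𝓘(ℝ, V) e x).map_smul a v

lemma smooth_De {e : S → V} (he : ContMDiff 𝓘(ℝ, E2) 𝓘(ℝ, V) ∞ e)
    {Y : Π x : S, TangentSpace 𝓘(ℝ, E2) x} {x : S}
    (hY : ContMDiffAt 𝓘(ℝ, E2) (𝓘(ℝ, E2).prod 𝓘(ℝ, E2)) ∞
      (fun x => (⟨x, Y x⟩ : TangentBundle 𝓘(ℝ, E2) S)) x) :
    ContMDiffAt 𝓘(ℝ, E2) 𝓘(ℝ, V) ∞ (fun x => De e x (Y x)) x := by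
  have h1 := he.contMDiff_tangentMap (m := ∞) (by simp)
  have h2 := (h1 _).comp x hY
  exact (contMDiff_snd_tangentBundle_modelSpace V 𝓘(ℝ, V)).contMDiffAt.comp x h2

variable [RiemannianBundle (fun x : S => TangentSpace 𝓘(ℝ, E2) x)]

lemma frame (x0 : S) : ∃ (U : Set S) (X : Fin 2 → (x : S) → TangentSpace 𝓘(ℝ, E2) x),
    IsOpen U ∧ x0 ∈ U ∧
    (∀ i, ∀ x ∈ U, ContMDiffAt 𝓘(ℝ, E2) (𝓘(ℝ, E2).prod 𝓘(ℝ, E2)) ∞
      (fun x => (⟨x, X i x⟩ : TangentBundle 𝓘(ℝ, E2) S)) x) ∧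
    (∀ x ∈ U, ∀ v : TangentSpace 𝓘(ℝ, E2) x, ∃ a b : ℝ, v = a • X 0 x + b • X 1 x) := by
  set t := trivializationAt E2 (fun x : S => TangentSpace 𝓘(ℝ, E2) x) x0
  set b : Module.Basis (Fin 2) ℝ E2 := (EuclideanSpace.basisFun (Fin 2) ℝ).toBasis
  refine ⟨t.baseSet, t.localFrame b, t.open_baseSet,
    FiberBundle.mem_baseSet_trivializationAt' x0, ?_, ?_⟩
  · intro i x hx
    exact contMDiffAt_localFrame_of_mem ∞ t b i hx
  · intro x hx v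
    have h := (t.isLocalFrameOn_localFrame_baseSet 𝓘(ℝ, E2) ∞ b)
    refine ⟨(h.toBasisAt hx).repr v 0, (h.toBasisAt hx).repr v 1, ?_⟩
    have := (h.toBasisAt hx).sum_repr v
    rw [Fin.sum_univ_two] at this
    simpa using this.symm

end

/-- The algebraic identity. -/
lemma quad_identity (p q r s G00 G01 G11 a b : ℝ) (hΔ : p * s - q * r ≠ 0) :
    a ^ 2 * G00 + 2 * a * b * G01 + b ^ 2 * G11 =
      ((s / (p * s - q * r)) ^ 2 * G00 +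
        2 * (s / (p * s - q * r)) * (-r / (p * s - q * r)) * G01 +
        (-r / (p * s - q * r)) ^ 2 * G11) * (p * a + q * b) ^ 2 +
      2 * ((s / (p * s - q * r)) * (-q / (p * s - q * r)) * G00 +
        ((s / (p * s - q * r)) * (p / (p * s - q * r)) +
          (-r / (p * s - q * r)) * (-q / (p * s - q * r))) * G01 +
        (-r / (p * s - q * r)) * (p / (p * s - q * r)) * G11) *
          ((p * a + q * b) * (r * a + s * b)) +
      ((-q / (p * s - q * r)) ^ 2 * G00 +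
        2 * (-q / (p * s - q * r)) * (p / (p * s - q * r)) * G01 +
        (p / (p * s - q * r)) ^ 2 * G11) * (r * a + s * b) ^ 2 := by
  have ha : a = (s / (p * s - q * r)) * (p * a + q * b) +
      (-q / (p * s - q * r)) * (r * a + s * b) := by
    rw [div_mul_eq_mul_div, div_mul_eq_mul_div, ← add_div, eq_div_iff hΔ]
    ring
  have hb : b = (-r / (p * s - q * r)) * (p * a + q * b) +
      (p / (p * s - q * r)) * (r * a + s * b) := by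
    rw [div_mul_eq_mul_div, div_mul_eq_mul_div, ← add_div, eq_div_iff hΔ]
    ring
  generalize s / (p * s - q * r) = y00 at *
  generalize -r / (p * s - q * r) = y01 at *
  generalize -q / (p * s - q * r) = y10 at *
  generalize p / (p * s - q * r) = y11 at *
  generalize p * a + q * b = l0 at *
  generalize r * a + s * b = l1 at *
  rw [ha, hb]
  ring

section

variable {S : Type} [MetricSpace S] [ChartedSpace E2 S] [IsManifold 𝓘(ℝ, E2) ∞ S]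
  {V : Type} [NormedAddCommGroup V] [NormedSpace ℝ V] [FiniteDimensional ℝ V]
  [RiemannianBundle (fun x : S => TangentSpace 𝓘(ℝ, E2) x)]
  [IsContMDiffRiemannianBundle 𝓘(ℝ, E2) ∞ E2 (fun x : S => TangentSpace 𝓘(ℝ, E2) x)]

/-- Adapted linear forms at a point. -/
lemma exists_forms {e : S → V}
    (hd : ∀ x, Injective (mfderiv 𝓘(ℝ, E2) 𝓘(ℝ, V) e x)) (x0 : S) :
    ∃ (l0 l1 : V →L[ℝ] ℝ) (b0 b1 : TangentSpace 𝓘(ℝ, E2) x0),
      l0 (De e x0 b0) = 1 ∧ l0 (De e x0 b1) = 0 ∧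
      l1 (De e x0 b0) = 0 ∧ l1 (De e x0 b1) = 1 ∧
      ‖b0‖ ^ 2 = 1 ∧ ‖b1‖ ^ 2 = 1 ∧ ‖b0 + b1‖ ^ 2 = 2 := by
  have hfin : Module.finrank ℝ (TangentSpace 𝓘(ℝ, E2) x0) = 2 := by
    change Module.finrank ℝ E2 = 2
    simp
  have : FiniteDimensional ℝ (TangentSpace 𝓘(ℝ, E2) x0) :=
    inferInstanceAs (FiniteDimensional ℝ E2)
  set B : OrthonormalBasis (Fin 2) ℝ (TangentSpace 𝓘(ℝ, E2) x0) :=
    (stdOrthonormalBasis ℝ (TangentSpace 𝓘(ℝ, E2) x0)).reindex (finCongr hfin) with hB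
  obtain ⟨g, hg⟩ := LinearMap.exists_leftInverse_of_injective (De e x0)
    (LinearMap.ker_eq_bot.2 (hd x0))
  have hg' : ∀ v, g (De e x0 v) = v := fun v => LinearMap.congr_fun hg v
  refine ⟨LinearMap.toContinuousLinearMap ((innerₛₗ ℝ (B 0)).comp g),
    LinearMap.toContinuousLinearMap ((innerₛₗ ℝ (B 1)).comp g), B 0, B 1, ?_, ?_, ?_, ?_, ?_, ?_, ?_⟩
  · change ⟪B 0, g (De e x0 (B 0))⟫_ℝ = 1
    rw [hg']
    simp
  · change ⟪B 0, g (De e x0 (B 1))⟫_ℝ = 0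
    rw [hg']
    simp
  · change ⟪B 1, g (De e x0 (B 0))⟫_ℝ = 0
    rw [hg']
    simp
  · change ⟪B 1, g (De e x0 (B 1))⟫_ℝ = 1
    rw [hg']
    simp
  · rw [B.norm_eq_one]; norm_num
  · rw [B.norm_eq_one]; norm_num
  · rw [norm_add_sq_real, B.norm_eq_one, B.norm_eq_one]
    have := B.inner_eq_ite 0 1
    rw [if_neg (by norm_num)] at this
    rw [this]
    norm_num

set_option maxHeartbeats 1000000 in
/-- Local decomposition of the metric and of the pulled back form. -/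
theorem loc {e : S → V} (he : ContMDiff 𝓘(ℝ, E2) 𝓘(ℝ, V) ∞ e)
    (hd : ∀ x, Injective (mfderiv 𝓘(ℝ, E2) 𝓘(ℝ, V) e x))
    {ι : Type} [Fintype ι] (u : ι → V → ℝ) (hu : ∀ J, ContDiff ℝ ∞ (u J)) (x0 : S) :
    ∃ U : Set S, IsOpen U ∧ x0 ∈ U ∧ ∃ c0 : ℝ, 0 < c0 ∧
      ∃ (m : Fin 4 → (V →L[ℝ] ℝ)) (β0 β1 : Fin 4 → S → ℝ),
        (∀ j, ∀ x ∈ U, ContMDiffAt 𝓘(ℝ, E2) 𝓘(ℝ, ℝ) ∞ (β0 j) x) ∧
        (∀ j, ∀ x ∈ U, ContMDiffAt 𝓘(ℝ, E2) 𝓘(ℝ, ℝ) ∞ (β1 j) x) ∧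
        (∀ x ∈ U, ∀ j, ∀ c, 0 < c → c ≤ c0 → 0 < β0 j x - c ^ 2 * β1 j x) ∧
        ∀ x ∈ U, ∀ v : TangentSpace 𝓘(ℝ, E2) x,
          ‖v‖ ^ 2 = ∑ j, β0 j x * (m j (De e x v)) ^ 2 ∧
          ∑ J, (fderiv ℝ (u J) (e x) (De e x v)) ^ 2 = ∑ j, β1 j x * (m j (De e x v)) ^ 2 := by
  classical
  obtain ⟨U0, X, hU0, hx0, hXs, hXspan⟩ := frame x0
  obtain ⟨l0, l1, b0, b1, h00, h01, h10, h11, hb0, hb1, hb01⟩ := exists_forms hd x0
  -- coefficients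
  set p : S → ℝ := fun x => l0 (De e x (X 0 x)) with hp
  set q : S → ℝ := fun x => l0 (De e x (X 1 x)) with hq
  set r : S → ℝ := fun x => l1 (De e x (X 0 x)) with hr
  set s : S → ℝ := fun x => l1 (De e x (X 1 x)) with hs
  set G00 : S → ℝ := fun x => ⟪X 0 x, X 0 x⟫_ℝ with hG00
  set G01 : S → ℝ := fun x => ⟪X 0 x, X 1 x⟫_ℝ with hG01
  set G11 : S → ℝ := fun x => ⟪X 1 x, X 1 x⟫_ℝ with hG11
  set H00 : S → ℝ := fun x => ∑ J, (fderiv ℝ (u J) (e x) (De e x (X 0 x))) ^ 2 with hH00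
  set H01 : S → ℝ := fun x => ∑ J, (fderiv ℝ (u J) (e x) (De e x (X 0 x))) *
    (fderiv ℝ (u J) (e x) (De e x (X 1 x))) with hH01
  set H11 : S → ℝ := fun x => ∑ J, (fderiv ℝ (u J) (e x) (De e x (X 1 x))) ^ 2 with hH11
  have hlin : ∀ (l : V →L[ℝ] ℝ) (i : Fin 2), ∀ x ∈ U0,
      ContMDiffAt 𝓘(ℝ, E2) 𝓘(ℝ, ℝ) ∞ (fun x => l (De e x (X i x))) x := by
    intro l i x hx
    exact l.contDiff.contMDiff.contMDiffAt.comp x (smooth_De he (hXs i x hx))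
  have hps : ∀ x ∈ U0, ContMDiffAt 𝓘(ℝ, E2) 𝓘(ℝ, ℝ) ∞ p x := hlin l0 0
  have hqs : ∀ x ∈ U0, ContMDiffAt 𝓘(ℝ, E2) 𝓘(ℝ, ℝ) ∞ q x := hlin l0 1
  have hrs : ∀ x ∈ U0, ContMDiffAt 𝓘(ℝ, E2) 𝓘(ℝ, ℝ) ∞ r x := hlin l1 0
  have hss : ∀ x ∈ U0, ContMDiffAt 𝓘(ℝ, E2) 𝓘(ℝ, ℝ) ∞ s x := hlin l1 1
  have hGs : ∀ i j, ∀ x ∈ U0,
      ContMDiffAt 𝓘(ℝ, E2) 𝓘(ℝ, ℝ) ∞ (fun x => ⟪X i x, X j x⟫_ℝ) x := by
    intro i j x hx
    exact (hXs i x hx).inner_bundle (hXs j x hx)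
  have hF : ∀ J i, ∀ x ∈ U0, ContMDiffAt 𝓘(ℝ, E2) 𝓘(ℝ, ℝ) ∞
      (fun x => fderiv ℝ (u J) (e x) (De e x (X i x))) x := by
    intro J i x hx
    have h1 : ContMDiffAt 𝓘(ℝ, E2) 𝓘(ℝ, V →L[ℝ] ℝ) ∞ (fun x => fderiv ℝ (u J) (e x)) x := by
      have h2 : ContDiff ℝ ∞ (fderiv ℝ (u J)) := (hu J).fderiv_right (by simp)
      exact h2.contMDiff.contMDiffAt.comp x he.contMDiffAt
    exact h1.clm_apply (smooth_De he (hXs i x hx))
  have hH00s : ∀ x ∈ U0, ContMDiffAt 𝓘(ℝ, E2) 𝓘(ℝ, ℝ) ∞ H00 x := by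
    intro x hx
    apply ContMDiffAt.sum
    intro J _
    exact (hF J 0 x hx).pow 2
  have hH01s : ∀ x ∈ U0, ContMDiffAt 𝓘(ℝ, E2) 𝓘(ℝ, ℝ) ∞ H01 x := by
    intro x hx
    apply ContMDiffAt.sum
    intro J _
    exact (hF J 0 x hx).mul (hF J 1 x hx)
  have hH11s : ∀ x ∈ U0, ContMDiffAt 𝓘(ℝ, E2) 𝓘(ℝ, ℝ) ∞ H11 x := by
    intro x hx
    apply ContMDiffAt.sum
    intro J _
    exact (hF J 1 x hx).pow 2
  set Δ : S → ℝ := fun x => p x * s x - q x * r x with hΔ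
  have hΔs : ∀ x ∈ U0, ContMDiffAt 𝓘(ℝ, E2) 𝓘(ℝ, ℝ) ∞ Δ x := fun x hx =>
    ((hps x hx).mul (hss x hx)).sub ((hqs x hx).mul (hrs x hx))
  have hΔ0 : Δ x0 ≠ 0 := by
    obtain ⟨a, b, hab⟩ := hXspan x0 hx0 b0
    obtain ⟨a', b', hab'⟩ := hXspan x0 hx0 b1
    have e1 : p x0 * a + q x0 * b = 1 := by
      rw [← h00, hab, map_add, map_smul, map_smul, map_add, map_smul, map_smul]
      simp only [hp, hq, smul_eq_mul]; ring
    have e2 : p x0 * a' + q x0 * b' = 0 := by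
      rw [← h01, hab', map_add, map_smul, map_smul, map_add, map_smul, map_smul]
      simp only [hp, hq, smul_eq_mul]; ring
    have e3 : r x0 * a + s x0 * b = 0 := by
      rw [← h10, hab, map_add, map_smul, map_smul, map_add, map_smul, map_smul]
      simp only [hr, hs, smul_eq_mul]; ring
    have e4 : r x0 * a' + s x0 * b' = 1 := by
      rw [← h11, hab', map_add, map_smul, map_smul, map_add, map_smul, map_smul]
      simp only [hr, hs, smul_eq_mul]; ring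
    intro h0
    have e5 : Δ x0 * (a * b' - a' * b) = 1 := by
      simp only [hΔ]
      linear_combination (r x0 * a' + s x0 * b') * e1 + e4 - (r x0 * a + s x0 * b) * e2
    rw [h0, zero_mul] at e5
    exact zero_ne_one e5
  -- the sections
  set y00 : S → ℝ := fun x => s x / Δ x with hy00
  set y01 : S → ℝ := fun x => -r x / Δ x with hy01
  set y10 : S → ℝ := fun x => -q x / Δ x with hy10
  set y11 : S → ℝ := fun x => p x / Δ x with hy11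
  set U1 : Set S := U0 ∩ Δ ⁻¹' {0}ᶜ with hU1
  have hU1o : IsOpen U1 := by
    have hc : ContinuousOn Δ U0 := fun x hx => (hΔs x hx).continuousAt.continuousWithinAt
    exact hc.isOpen_inter_preimage hU0 isOpen_compl_singleton
  have hx1 : x0 ∈ U1 := ⟨hx0, hΔ0⟩
  have hy00s : ∀ x ∈ U1, ContMDiffAt 𝓘(ℝ, E2) 𝓘(ℝ, ℝ) ∞ y00 x := fun x hx =>
    (hss x hx.1).div₀ (hΔs x hx.1) hx.2
  have hy01s : ∀ x ∈ U1, ContMDiffAt 𝓘(ℝ, E2) 𝓘(ℝ, ℝ) ∞ y01 x := fun x hx =>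
    (hrs x hx.1).neg.div₀ (hΔs x hx.1) hx.2
  have hy10s : ∀ x ∈ U1, ContMDiffAt 𝓘(ℝ, E2) 𝓘(ℝ, ℝ) ∞ y10 x := fun x hx =>
    (hqs x hx.1).neg.div₀ (hΔs x hx.1) hx.2
  have hy11s : ∀ x ∈ U1, ContMDiffAt 𝓘(ℝ, E2) 𝓘(ℝ, ℝ) ∞ y11 x := fun x hx =>
    (hps x hx.1).div₀ (hΔs x hx.1) hx.2
  -- generic coefficient functions
  let Q00 : (S → ℝ) → (S → ℝ) → (S → ℝ) → S → ℝ := fun K00 K01 K11 x =>
    (y00 x) ^ 2 * K00 x + 2 * (y00 x) * (y01 x) * K01 x + (y01 x) ^ 2 * K11 x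
  let Q01 : (S → ℝ) → (S → ℝ) → (S → ℝ) → S → ℝ := fun K00 K01 K11 x =>
    (y00 x) * (y10 x) * K00 x + ((y00 x) * (y11 x) + (y01 x) * (y10 x)) * K01 x +
      (y01 x) * (y11 x) * K11 x
  let Q11 : (S → ℝ) → (S → ℝ) → (S → ℝ) → S → ℝ := fun K00 K01 K11 x =>
    (y10 x) ^ 2 * K00 x + 2 * (y10 x) * (y11 x) * K01 x + (y11 x) ^ 2 * K11 x
  have hQs : ∀ K00 K01 K11 : S → ℝ, (∀ x ∈ U0, ContMDiffAt 𝓘(ℝ, E2) 𝓘(ℝ, ℝ) ∞ K00 x) →
      (∀ x ∈ U0, ContMDiffAt 𝓘(ℝ, E2) 𝓘(ℝ, ℝ) ∞ K01 x) →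
      (∀ x ∈ U0, ContMDiffAt 𝓘(ℝ, E2) 𝓘(ℝ, ℝ) ∞ K11 x) → ∀ x ∈ U1,
      ContMDiffAt 𝓘(ℝ, E2) 𝓘(ℝ, ℝ) ∞ (Q00 K00 K01 K11) x ∧
      ContMDiffAt 𝓘(ℝ, E2) 𝓘(ℝ, ℝ) ∞ (Q01 K00 K01 K11) x ∧
      ContMDiffAt 𝓘(ℝ, E2) 𝓘(ℝ, ℝ) ∞ (Q11 K00 K01 K11) x := by
    intro K00 K01 K11 hK0 hK1 hK2 x hx
    have a0 := hK0 x hx.1
    have a1 := hK1 x hx.1
    have a2 := hK2 x hx.1
    have c00 := hy00s x hx
    have c01 := hy01s x hx
    have c10 := hy10s x hx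
    have c11 := hy11s x hx
    have two : ContMDiffAt 𝓘(ℝ, E2) 𝓘(ℝ, ℝ) ∞ (fun _ : S => (2 : ℝ)) x := contMDiffAt_const
    exact ⟨(((c00.pow 2).mul a0).add (((two.mul c00).mul c01).mul a1)).add ((c01.pow 2).mul a2),
      (((c00.mul c10).mul a0).add (((c00.mul c11).add (c01.mul c10)).mul a1)).add
        ((c01.mul c11).mul a2),
      (((c10.pow 2).mul a0).add (((two.mul c10).mul c11).mul a1)).add ((c11.pow 2).mul a2)⟩
  have hQid : ∀ K00 K01 K11 : S → ℝ, ∀ x ∈ U1, ∀ a b : ℝ,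
      a ^ 2 * K00 x + 2 * a * b * K01 x + b ^ 2 * K11 x =
        Q00 K00 K01 K11 x * (p x * a + q x * b) ^ 2 +
        2 * Q01 K00 K01 K11 x * ((p x * a + q x * b) * (r x * a + s x * b)) +
        Q11 K00 K01 K11 x * (r x * a + s x * b) ^ 2 := by
    intro K00 K01 K11 x hx a b
    exact quad_identity (p x) (q x) (r x) (s x) (K00 x) (K01 x) (K11 x) a b hx.2
  have hval : ∀ x ∈ U1, ∀ v : TangentSpace 𝓘(ℝ, E2) x,
      ‖v‖ ^ 2 = Q00 G00 G01 G11 x * (l0 (De e x v)) ^ 2 +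
        2 * Q01 G00 G01 G11 x * (l0 (De e x v) * l1 (De e x v)) +
        Q11 G00 G01 G11 x * (l1 (De e x v)) ^ 2 ∧
      ∑ J, (fderiv ℝ (u J) (e x) (De e x v)) ^ 2 = Q00 H00 H01 H11 x * (l0 (De e x v)) ^ 2 +
        2 * Q01 H00 H01 H11 x * (l0 (De e x v) * l1 (De e x v)) +
        Q11 H00 H01 H11 x * (l1 (De e x v)) ^ 2 := by
    intro x hx v
    obtain ⟨a, b, hab⟩ := hXspan x hx.1 v
    have e1 : l0 (De e x v) = p x * a + q x * b := by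
      rw [hab, map_add, map_smul, map_smul, map_add, map_smul, map_smul]
      simp only [hp, hq, smul_eq_mul]; ring
    have e2 : l1 (De e x v) = r x * a + s x * b := by
      rw [hab, map_add, map_smul, map_smul, map_add, map_smul, map_smul]
      simp only [hr, hs, smul_eq_mul]; ring
    rw [e1, e2, ← hQid G00 G01 G11 x hx a b, ← hQid H00 H01 H11 x hx a b]
    constructor
    · rw [← real_inner_self_eq_norm_sq, hab]
      simp only [inner_add_left, inner_add_right, real_inner_smul_left, real_inner_smul_right,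
        hG00, hG01, hG11]
      rw [real_inner_comm (X 0 x) (X 1 x)]
      ring
    · simp only [hH00, hH01, hH11]
      rw [Finset.mul_sum, Finset.mul_sum, Finset.mul_sum, ← Finset.sum_add_distrib,
        ← Finset.sum_add_distrib]
      apply Finset.sum_congr rfl
      intro J _
      rw [hab, map_add, map_smul, map_smul, map_add, map_smul, map_smul]
      simp only [smul_eq_mul]
      ring
  -- values at `x0`
  set P00 := Q00 G00 G01 G11 with hP00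
  set P01 := Q01 G00 G01 G11 with hP01
  set P11 := Q11 G00 G01 G11 with hP11
  set R00 := Q00 H00 H01 H11 with hR00
  set R01 := Q01 H00 H01 H11 with hR01
  set R11 := Q11 H00 H01 H11 with hR11
  have v0 : P00 x0 = 1 := by
    have := (hval x0 hx1 b0).1
    rw [h00, h10, hb0] at this
    linarith
  have v1 : P11 x0 = 1 := by
    have := (hval x0 hx1 b1).1
    rw [h01, h11, hb1] at this
    linarith
  have v01 : P01 x0 = 0 := by
    have := (hval x0 hx1 (b0 + b1)).1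
    rw [map_add, map_add, map_add, h00, h01, h10, h11, hb01] at this
    linarith
  let β0 : Fin 4 → S → ℝ := ![fun x => P00 x - 1 / 2, fun x => P11 x - 1 / 2,
    fun x => 1 / 4 + (1 / 2) * P01 x, fun x => 1 / 4 - (1 / 2) * P01 x]
  let β1 : Fin 4 → S → ℝ := ![R00, R11, fun x => (1 / 2) * R01 x, fun x => - ((1 / 2) * R01 x)]
  let m : Fin 4 → (V →L[ℝ] ℝ) := ![l0, l1, l0 + l1, l0 - l1]
  have hPs : ∀ x ∈ U1, _ := hQs G00 G01 G11 (hGs 0 0) (hGs 0 1) (hGs 1 1)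
  have hRs : ∀ x ∈ U1, _ := hQs H00 H01 H11 hH00s hH01s hH11s
  have hβ0s : ∀ j, ∀ x ∈ U1, ContMDiffAt 𝓘(ℝ, E2) 𝓘(ℝ, ℝ) ∞ (β0 j) x := by
    intro j x hx
    obtain ⟨a0, a1, a2⟩ := hPs x hx
    have cst : ∀ c : ℝ, ContMDiffAt 𝓘(ℝ, E2) 𝓘(ℝ, ℝ) ∞ (fun _ : S => c) x :=
      fun c => contMDiffAt_const
    fin_cases j
    · exact a0.sub (cst _)
    · exact a2.sub (cst _)
    · exact (cst _).add ((cst _).mul a1)
    · exact (cst _).sub ((cst _).mul a1)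
  have hβ1s : ∀ j, ∀ x ∈ U1, ContMDiffAt 𝓘(ℝ, E2) 𝓘(ℝ, ℝ) ∞ (β1 j) x := by
    intro j x hx
    obtain ⟨a0, a1, a2⟩ := hRs x hx
    have cst : ∀ c : ℝ, ContMDiffAt 𝓘(ℝ, E2) 𝓘(ℝ, ℝ) ∞ (fun _ : S => c) x :=
      fun c => contMDiffAt_const
    fin_cases j
    · exact a0
    · exact a2
    · exact (cst _).mul a1
    · exact ((cst _).mul a1).neg
  -- positivity
  have hβ00 : ∀ j, 1 / 8 < β0 j x0 := by
    intro j
    fin_cases j
    · change 1 / 8 < P00 x0 - 1 / 2; rw [v0]; norm_num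
    · change 1 / 8 < P11 x0 - 1 / 2; rw [v1]; norm_num
    · change 1 / 8 < 1 / 4 + (1 / 2) * P01 x0; rw [v01]; norm_num
    · change 1 / 8 < 1 / 4 - (1 / 2) * P01 x0; rw [v01]; norm_num
  set K : ℝ := ∑ j, |β1 j x0| + 1 with hK
  have hK1 : 1 ≤ K := by
    have : 0 ≤ ∑ j, |β1 j x0| := Finset.sum_nonneg fun _ _ => abs_nonneg _
    linarith
  have hβ10 : ∀ j, β1 j x0 < K := by
    intro j
    have h1 : |β1 j x0| ≤ ∑ j, |β1 j x0| :=
      Finset.single_le_sum (f := fun j => |β1 j x0|) (fun _ _ => abs_nonneg _) (Finset.mem_univ j)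
    have h2 := le_abs_self (β1 j x0)
    linarith
  have hev : ∀ᶠ x in 𝓝 x0, x ∈ U1 ∧ ∀ j, 1 / 8 < β0 j x ∧ β1 j x < K := by
    refine Filter.Eventually.and (hU1o.mem_nhds hx1) ?_
    rw [Filter.eventually_all]
    intro j
    exact ((hβ0s j x0 hx1).continuousAt.eventually_const_lt (hβ00 j)).and
      ((hβ1s j x0 hx1).continuousAt.eventually_lt_const (hβ10 j))
  obtain ⟨U, hUsub, hUo, hxU⟩ := mem_nhds_iff.1 hev
  refine ⟨U, hUo, hxU, 1 / (8 * (K + 1)), by positivity, m, β0, β1,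
    fun j x hx => hβ0s j x (hUsub hx).1, fun j x hx => hβ1s j x (hUsub hx).1, ?_, ?_⟩
  · intro x hx j c hc hcc
    obtain ⟨h1, h2⟩ := (hUsub hx).2 j
    have h3 : c ^ 2 * β1 j x ≤ 1 / 8 := by
      have h4 : c * (8 * (K + 1)) ≤ 1 := by
        rwa [le_div_iff₀ (by positivity)] at hcc
      have h5 : c ≤ 1 := by nlinarith
      have h6 : c ^ 2 * β1 j x ≤ c ^ 2 * K := by
        apply mul_le_mul_of_nonneg_left h2.le (by positivity)
      have h7 : c ^ 2 * K ≤ c * K := by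
        apply mul_le_mul_of_nonneg_right _ (by linarith)
        nlinarith
      nlinarith
    linarith
  · intro x hx v
    obtain ⟨h1, h2⟩ := hval x (hUsub hx).1 v
    rw [h1, h2, Fin.sum_univ_four, Fin.sum_univ_four]
    constructor
    · change _ = (P00 x - 1 / 2) * (l0 (De e x v)) ^ 2 + (P11 x - 1 / 2) * (l1 (De e x v)) ^ 2 +
        (1 / 4 + (1 / 2) * P01 x) * (l0 (De e x v) + l1 (De e x v)) ^ 2 +
        (1 / 4 - (1 / 2) * P01 x) * (l0 (De e x v) - l1 (De e x v)) ^ 2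
      ring
    · change _ = R00 x * (l0 (De e x v)) ^ 2 + R11 x * (l1 (De e x v)) ^ 2 +
        ((1 / 2) * R01 x) * (l0 (De e x v) + l1 (De e x v)) ^ 2 +
        (- ((1 / 2) * R01 x)) * (l0 (De e x v) - l1 (De e x v)) ^ 2
      ring

end

end Pool.Agent.TH596.NE
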